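import Pool.Agent.KTB.StmtsKB

set_option autoImplicit false

/-! # Squad KTB, row TGA (ranks of blocks) -/

namespace Pool.Agent.KTB.H21

open Finset Pool.Agent.KTB
open scoped Classical

theorem tga : TgaStmt := by
  intro ι κ r E K h
  have ha : ∀ A, r A ≤ A.card := by
    intro A
    induction A using Finset.induction_on with
    | empty => rw [h.emp]; exact Nat.zero_le _
    | insert a s has ih =>
      have h1 := h.sub {a} s
      have h2 := h.one a
      rw [← Finset.insert_eq] at h1
      rw [Finset.card_insert_of_notMem has]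
      omega
  have hb : ∀ A B, A ⊆ B → ∀ y, r (insert y A) = r A → r (insert y B) = r B := by
    intro A B hAB y hy
    have h1 := h.sub (insert y A) B
    have e : insert y A ∪ B = insert y B := by
      rw [Finset.insert_union, Finset.union_eq_right.2 hAB]
    rw [e] at h1
    have h2 : r A ≤ r (insert y A ∩ B) :=
      h.mono _ _ (Finset.subset_inter (Finset.subset_insert _ _) hAB)
    have h3 : r B ≤ r (insert y B) := h.mono _ _ (Finset.subset_insert _ _)
    omega
  have hc : ∀ A B, (∀ y ∈ B, r (insert y A) = r A) → r (A ∪ B) = r A := by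
    intro A B
    induction B using Finset.induction_on with
    | empty => intro _; rw [Finset.union_empty]
    | insert b s hbs ih =>
      intro hy
      rw [Finset.union_insert, hb A (A ∪ s) Finset.subset_union_left b
        (hy b (Finset.mem_insert_self _ _))]
      exact ih fun y hys => hy y (Finset.mem_insert_of_mem hys)
  have hd : ∀ k ∈ K, r (E k) + 1 = (E k).card := by
    intro k hk
    have h2 := h.two k hk
    obtain ⟨y, hy⟩ : (E k).Nonempty := Finset.card_pos.1 (by omega)
    have h3 := h.cir k hk y hy
    have h4 := ha ((E k).erase y)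
    rw [Finset.card_erase_of_mem hy] at h4
    have h5 := h.irr {k} (Finset.singleton_subset_iff.2 hk) (Finset.singleton_nonempty k)
    rw [Finset.singleton_biUnion] at h5
    unfold rexc at h5
    rw [Finset.sum_singleton] at h5
    omega
  have he : ∀ k ∈ K, 3 ≤ (E k).card → ∀ y ∈ E k, ∀ y' ∈ E k, y ≠ y' → r {y, y'} = 2 := by
    intro k hk h3 y hy y' hy' hne
    have hcard : ({y, y'} : Finset ι).card = 2 := Finset.card_pair hne
    have hsub : ({y, y'} : Finset ι) ⊆ E k := by
      intro z hz
      rw [Finset.mem_insert, Finset.mem_singleton] at hz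
      rcases hz with rfl | rfl
      · exact hy
      · exact hy'
    obtain ⟨z, hz⟩ : ((E k) \ {y, y'}).Nonempty := by
      apply Finset.card_pos.1
      rw [Finset.card_sdiff_of_subset hsub, hcard]
      omega
    rw [Finset.mem_sdiff] at hz
    have h1 := h.cir k hk z hz.1
    have h2 := hd k hk
    have e : ({y, y'} : Finset ι) ∪ ((E k).erase z \ {y, y'}) = (E k).erase z := by
      apply Finset.union_sdiff_of_subset
      intro u hu
      exact Finset.mem_erase.2 ⟨fun h0 => hz.2 (h0 ▸ hu), hsub hu⟩
    have h4 := h.sub {y, y'} ((E k).erase z \ {y, y'})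
    rw [e] at h4
    have h5 := ha ((E k).erase z \ {y, y'})
    have h6 : ({y, y'} : Finset ι) ⊆ (E k).erase z := by
      intro u hu
      exact Finset.mem_erase.2 ⟨fun h0 => hz.2 (h0 ▸ hu), hsub hu⟩
    rw [Finset.card_sdiff_of_subset h6, hcard, Finset.card_erase_of_mem hz.1] at h5
    have h7 := ha {y, y'}
    rw [hcard] at h7
    omega
  refine ⟨ha, hb, hc, hd, he, ?_⟩
  intro k hk
  refine ⟨Finset.singleton_subset_iff.2 hk, Finset.singleton_nonempty k, ?_⟩
  have h2 := h.two k hk
  have h3 := hd k hk
  rw [Finset.singleton_biUnion]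
  unfold rexc
  rw [Finset.sum_singleton]
  omega

end Pool.Agent.KTB.H21
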